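import Pool.Agent.L0h46.CZ.FinX
import Pool.Agent.L0h46.CZ.LIA
import Pool.Agent.L0h46.CZ.LIX

/-!
# Campana points on varieties birational to projective spaces: pairs with a component of small degree

We consider C-pairs `(X, ∑ (1 - 1 / m_i) D_i)` over `ℚ`, where `X` is any smooth projective variety
birational to `ℙⁿ` over `ℚ`, with any number of components and any multiplicities (finite or
infinite), and integral points over the `S`-integers for any finite set `S` of primes.

**The points.** Let first `X = ℙⁿ`, `D_i` given by the form `F_i` with integral coefficients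
without common divisor. The integral points are given by the primitive integral vectors `x` with
`F_i(x) ≠ 0` such that every prime outside `S` which divides `F_i(x)` divides it at least `m_i` times.
In general there is an open subset `U` of `ℙⁿ` with complement of codimension at least two with a
birational morphism `φ : U → X`. Let `D_i` be the components which are not contracted in `ℙⁿ`, and
`F_i = 0` their images. There are forms `F'_l`, `G'_l` of the kind considered below such that the
common zeros of `F'_l` and `G'_l`, for all `l`, contain the complement of `U` and the common zeros of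
two different components of the preimage under `φ` of all the components of the boundary. Outside
the primes of a finite set, the intersection number of `D_i` and `φ(x)` at `p` is the exponent of
`p` in `F_i(x)`, if `p` divides `F_i(x)` and is not a common divisor of `F'_l(x)` and `G'_l(x)` for some
`l`. So the integral points `φ(x)` of the pair satisfy the conditions in the definition of
`points`. (All points of `X(ℚ)` outside a proper closed subset are such `φ(x)`.) This includes the
pairs on `X` with simple normal crossings obtained by resolving singular components in `ℙⁿ`.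

**Theorem.** Suppose that one of the components `D`, whose image in `ℙⁿ` is a hypersurface of
degree `k`, with multiplicity `m ≥ 2`, satisfies `k < (2 m + 1) α(D)`, where `α(D) = 1 + 1 / n` for an
arbitrary `D` if `n ≥ 2`, and `α(D) = r` if the image of `D` is an orbit of conjugate hyperplanes whose
linear forms span a space of dimension `r` (`F` is the norm of a linear form of rank `r`; for `n = 1`
these are all irreducible `F`, with `r = 2` if `k ≥ 2`).
(1) The number of the integral points `φ(x)` with `x` of height at most `B` is `O(B ^ (n + 1 - c))`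
with some `c > 0`, less by a power of `B` than the number of all the `x`.
(2) There is one set `Z` of density zero such that for ALL these pairs and all `S` all but finitely
many of these `x` are in `Z`.

The conjecture says that the integral points of a pair of general type are in a proper closed
subset (for `X = ℙⁿ` the condition is `∑ k_i (1 - 1 / m_i) > n + 1`). There are pairs of general type
of the kind considered here for all `n` and all multiplicities, as the other components are
arbitrary. With a single component in `ℙⁿ`: hypersurfaces of degree `k` with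
`(n + 1) m / (m - 1) < k < (2 m + 1) (n + 1) / n`, for instance plane curves of degree `7` for `m = 2`,
and of the degrees `5, …, 10` for `m = 3`.

From the truncated counting functions of `Results/MP_9ec3f0_nt/ConjugateHyperplanes` in the starting
files the theorem follows for `n ≥ 2` and `k < 2 m α(D)`.

**The proof.** Let `N = |F(x)|`, `α = α(D)` and `γ` small. By results of the starting library
(helper445: geometry of numbers, determinant method, `N445`) it is rare that `N` is divisible by the
square of a number `M > B ^ ε` all of whose primes are at most `B ^ (α - γ)`, that `N = σ w ^ e` with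
`e ≥ 2` and `σ ≤ B ^ ρ`, that `F'_l(x)` and `G'_l(x)` have a common divisor `> B ^ η`, and that `N` has a
divisor `> B ^ ε` with a radical `≤ B ^ η`. If `N` is `m`-full outside `S` and the exceptional primes and
nothing of this happens, then the primes larger than `B ^ (α - γ)` have exponents `≥ m` in `N` with sum
at most `2 m` (as `k < (2 m + 1) α`), so that they are all equal to `m` or there is only one prime, and
their contribution is a power `w ^ e`. The rest of `N` is the product of a square `M ^ 2 ≤ B ^ (2 ε)`, a
small number and a squarefree number which divides `M` times the product of the primes in `S`; so it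
is at most `B ^ (5 ε)`.
-/

set_option autoImplicit false

namespace Pool.Agent.Results.MP_464c42_nt.ComponentOfSmallDegree

open MvPolynomial

/-- The vector is primitive. Every rational point of `ℙⁿ` is given by two such vectors, `x` and `-x`,
and its height is `max |x_i|`. -/
def IsPrimitive {n : ℕ} (x : Fin (n + 1) → ℤ) : Prop :=
  ∃ c : Fin (n + 1) → ℤ, ∑ i, c i * x i = 1

/-- The prime `p` is exceptional for `x`: for some `l` it divides `F'_l(x)` and `G'_l(x)`. -/
def IsExceptional {n t : ℕ} (F' G' : Fin t → MvPolynomial (Fin (n + 1)) ℤ) (p : ℕ)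
    (x : Fin (n + 1) → ℤ) : Prop :=
  ∃ l, (p : ℤ) ∣ eval x (F' l) ∧ (p : ℤ) ∣ eval x (G' l)

/-- `x` is primitive, `F_i(x) ≠ 0` and every prime which divides `F_i(x)` and which is not in `S` and
not exceptional for `x` divides `F_i(x)` at least `m_i` times (never if `m_i = ∞`). -/
def points {n q t : ℕ} (F : Fin q → MvPolynomial (Fin (n + 1)) ℤ) (m : Fin q → ℕ∞)
    (S : Finset ℕ) (F' G' : Fin t → MvPolynomial (Fin (n + 1)) ℤ) : Set (Fin (n + 1) → ℤ) :=
  {x | IsPrimitive x ∧ ∀ i, eval x (F i) ≠ 0 ∧
    ∀ p : ℕ, p.Prime → p ∉ S → ¬ IsExceptional F' G' p x → (p : ℤ) ∣ eval x (F i) →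
      m i ≤ emultiplicity (p : ℤ) (eval x (F i))}

/-- The common zeros of `F'_l` and `G'_l` have codimension at least two: `F'_l` is homogeneous and
irreducible over `ℚ` and does not divide `G'_l`. -/
def CodimTwo {n t : ℕ} (F' G' : Fin t → MvPolynomial (Fin (n + 1)) ℤ) : Prop :=
  ∀ l, (∃ k, (F' l).IsHomogeneous k) ∧ Irreducible (map (Int.castRingHom ℚ) (F' l)) ∧
    ¬ map (Int.castRingHom ℚ) (F' l) ∣ map (Int.castRingHom ℚ) (G' l)

/-- `F` is a rational multiple of the norm of a linear form `∑ α_i x_i` with coefficients in a number
field which span a space of dimension `r` over `ℚ`. -/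
def IsNormForm {n : ℕ} (F : MvPolynomial (Fin (n + 1)) ℤ) (r : ℕ) : Prop :=
  ∃ (E : Type) (_ : Field E) (_ : NumberField E) (α : Fin (n + 1) → E) (c : ℚ),
    Module.finrank ℚ (Submodule.span ℚ (Set.range α)) = r ∧
    ∀ x : Fin (n + 1) → ℤ, (eval x F : ℚ) = c * Algebra.norm ℚ (∑ i, (x i : E) * α i)

/-- The degree `k` of `F` is small for the multiplicity `m`: for some natural number `e` with
`2 ≤ e ≤ m`, `n ≥ 2` and `k < (2 e + 1) (1 + 1 / n)`, or `F` is a norm form of rank `r` and
`k < (2 e + 1) r`. (If `m` is finite it is best to take `e = m`; there is no condition if `n ≥ 2` and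
`m = ∞`.) -/
def IsSmall {n : ℕ} (F : MvPolynomial (Fin (n + 1)) ℤ) (k : ℕ) (m : ℕ∞) : Prop :=
  ∃ e : ℕ, 2 ≤ e ∧ (e : ℕ∞) ≤ m ∧ ((2 ≤ n ∧ n * k < (2 * e + 1) * (n + 1)) ∨
    ∃ r : ℕ, IsNormForm F r ∧ k < (2 * e + 1) * r)

/-- **C-pairs with a component of small degree, on varieties over `ℚ` birational to `ℙⁿ`.** -/
theorem result (n : ℕ) :
    -- a power saving for every pair
    (∀ (q t : ℕ) (F : Fin q → MvPolynomial (Fin (n + 1)) ℤ) (k : Fin q → ℕ) (m : Fin q → ℕ∞)
      (S : Finset ℕ) (F' G' : Fin t → MvPolynomial (Fin (n + 1)) ℤ),
      (∀ i, (F i).IsHomogeneous (k i)) →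
      (∀ i, Irreducible (map (Int.castRingHom ℚ) (F i))) → CodimTwo F' G' →
      (∃ i, IsSmall (F i) (k i) (m i)) →
      ∃ c C : ℝ, 0 < c ∧ ∀ B : ℝ, 1 ≤ B →
        {x | x ∈ points F m S F' G' ∧ ∀ i, |(x i : ℝ)| ≤ B}.Finite ∧
        ({x | x ∈ points F m S F' G' ∧ ∀ i, |(x i : ℝ)| ≤ B}.ncard : ℝ) ≤
          C * B ^ ((n + 1 : ℕ) - c)) ∧
    -- one exceptional set of density zero for all pairs
    ∃ Z : Set (Fin (n + 1) → ℤ),
      (∀ ε : ℝ, 0 < ε → ∃ B₀ : ℕ, ∀ B : ℕ, B₀ ≤ B →
        ({x | x ∈ Z ∧ ∀ i, |x i| ≤ B}.ncard : ℝ) ≤ ε * (B : ℝ) ^ (n + 1)) ∧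
      ∀ (q t : ℕ) (F : Fin q → MvPolynomial (Fin (n + 1)) ℤ) (k : Fin q → ℕ) (m : Fin q → ℕ∞)
        (S : Finset ℕ) (F' G' : Fin t → MvPolynomial (Fin (n + 1)) ℤ),
        (∀ i, (F i).IsHomogeneous (k i)) →
        (∀ i, Irreducible (map (Int.castRingHom ℚ) (F i))) → CodimTwo F' G' →
        (∃ i, IsSmall (F i) (k i) (m i)) →
        {x | x ∈ points F m S F' G' ∧ x ∉ Z}.Finite := by
  have hlix : Pool.Agent.L0h46.CZ.S_LIY := fun n F hF hF0 m S hm =>
    Pool.Agent.L0h46.CZ.lix Pool.Agent.L0h46.CZ.lia n F hF hF0 m S hm
  exact Pool.Agent.L0h46.CZ.finX hlix n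

end Pool.Agent.Results.MP_464c42_nt.ComponentOfSmallDegree
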