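import Pool.Agent.L0h46.CY.One
import Pool.Agent.L0h46.CY.Fin
import Pool.Agent.L0h46.CY.WU
import Pool.Agent.L0h46.CY.TU
import Pool.Agent.L0h46.CY.SU
import Pool.Agent.L0h46.CY.BEZ
import Pool.Agent.L0h46.CY.SHR
import Pool.Agent.L0h56.CY.GRWSZ
import Pool.Agent.L0h46.CV.CLS
import Pool.Agent.L0h46.CV.FUL
import Pool.Agent.L0h46.CV.DIV
import Pool.Agent.L0h46.CV.SPL
import Pool.Agent.L0h55.CV.COL

/-!
# Campana points on projective and affine spaces: hypersurfaces of degree at most `2 m`

Let `F` be a polynomial of total degree `d` in `n + 1` variables with integral coefficients which is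
squarefree over `ℚ`, `m ≥ 2`, and let `S` be a finite set of primes.  We count the integral vectors
`x` with coordinates of absolute value at most `B` such that `F(x)` is not zero and `m`-full outside
`S`: every prime outside `S` which divides `F(x)` divides it at least `m` times.  For `3 ≤ d ≤ 2 m`
their number is at most `K B ^ (n + max (1 / 2 + 1 / (2 m)) (d / (2 m + 1)) + ε)`, less by a power of
`B` than the number `(2 B + 1) ^ (n + 1)` of all vectors.

Integral points of C-pairs are among these vectors.

* Let `F` be a form, and let `D` be the hypersurface `F = 0` of `ℙⁿ` (if `D = ∑ D_i` and `F = ∏ F_i`,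
  the multiplicities `m_i ≥ m` may be different).  The `S`-integral points of the C-pair
  `(ℙⁿ, (1 - 1 / m) D)` of height at most `B` are given by primitive vectors `x` of this kind.  The
  pair is of general type if and only if `d (1 - 1 / m) > n + 1`.
* Let `F` be any polynomial, `D` the closure of the hypersurface `F = 0` in `ℙ^(n + 1)` and `H` the
  hyperplane at infinity.  The integral points of the C-pair `(ℙ^(n + 1), H + (1 - 1 / m) D)` are the
  integral vectors `x` with `F(x)` `m`-full.  The pair is of general type if and only if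
  `d (1 - 1 / m) > n + 1`.

According to the conjecture of Campana the integral points of a pair of general type are not dense.
Since there are at most `B ^ (d / m + ε)` numbers up to `B ^ d` which are `m`-full outside `S`, it is
easy to save a power of `B` for `d < m`.

The proof.  After a shear the polynomial is monic in `x_0` up to a constant factor.  We fix the other
variables and prove a bound which is uniform in the polynomial `f` in one variable.  Its value at `a`
is `± s A L`, `s` composed of primes of `S` and of the `O(log B)` primes modulo which `f` has multiple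
factors, `L` the part from the primes `> B ^ θ`, `θ < 1`.  If `A` is larger than `B ^ (1 / 2)`, then
`f(a)` is divisible by an `m`-full number between `B ^ (1 / 2)` and `B` or by a power `p ^ m` with
`p ≤ B ^ θ`.  As `d ≤ 2 m`, all primes of `L` have the same exponent, so that `L = y ^ t` with a prime
`t`; for fixed `s A` the number of `a` with `f(a) = ± s A y ^ t` is estimated with the large sieve and
with Weil's bound for the number of points on the curves `y ^ t = f(x)` over finite fields.
-/

set_option autoImplicit false

namespace Pool.Agent.Results.MP_464c42_nt.FullValuesInAllDimensions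

open MvPolynomial

/-- The integral vectors `x` in `n + 1` variables, with coordinates of absolute value at most `B`, such
that `F(x) ≠ 0` and every prime outside `S` which divides `F(x)` divides it at least `m` times. -/
def points (n : ℕ) (F : MvPolynomial (Fin (n + 1)) ℤ) (m : ℕ) (S : Finset ℕ) (B : ℝ) :
    Set (Fin (n + 1) → ℤ) :=
  {x | (∀ i, |(x i : ℝ)| ≤ B) ∧ eval x F ≠ 0 ∧
    ∀ p : ℕ, p.Prime → p ∉ S → (p : ℤ) ∣ eval x F → (p : ℤ) ^ m ∣ eval x F}

/-- **Full values of polynomials.**  Let `F` be a polynomial of total degree `d` in `n + 1` variables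
with integral coefficients, squarefree over `ℚ`, and `3 ≤ d ≤ 2 m`.  For all finite sets `S` of primes
and all `ε > 0` there is a constant `K` such that for all `B ≥ 1` there are at most
`K B ^ (n + max (1 / 2 + 1 / (2 m)) (d / (2 m + 1)) + ε)` integral vectors `x` with `|x_i| ≤ B` and
`F(x) ≠ 0` such that every prime outside `S` which divides `F(x)` divides it at least `m` times.  The
maximum is less than `1`. -/
theorem result (n d m : ℕ) (F : MvPolynomial (Fin (n + 1)) ℤ) (hFd : F.totalDegree = d)
    (hF : Squarefree (map (Int.castRingHom ℚ) F)) (hd : 3 ≤ d) (hdm : d ≤ 2 * m) :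
    max (1 / 2 + 1 / (2 * (m : ℝ))) (d / (2 * (m : ℝ) + 1)) < 1 ∧
    ∀ (S : Finset ℕ) (ε : ℝ), 0 < ε → ∃ K : ℝ, ∀ B : ℝ, 1 ≤ B →
      (points n F m S B).Finite ∧ ((points n F m S B).ncard : ℝ) ≤
        K * B ^ (n + max (1 / 2 + 1 / (2 * (m : ℝ))) (d / (2 * (m : ℝ) + 1)) + ε) := by
  have hm : 2 ≤ m := by omega
  have hmR : (2 : ℝ) ≤ m := by exact_mod_cast hm
  refine ⟨?_, ?_⟩
  · rw [max_lt_iff]
    constructor
    · have : 1 / (2 * (m : ℝ)) ≤ 1 / 4 := by
        rw [div_le_div_iff₀ (by positivity) (by norm_num)]
        linarith
      linarith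
    · rw [div_lt_iff₀ (by positivity)]
      have : (d : ℝ) ≤ 2 * m := by exact_mod_cast hdm
      linarith
  · intro S ε hε
    have hone := Pool.Agent.L0h46.CY.one (Pool.Agent.L0h46.CY.wu Pool.Agent.L0h46.CV.cls)
      (Pool.Agent.L0h46.CY.tu Pool.Agent.L0h55.CV.col) Pool.Agent.L0h46.CY.su
      Pool.Agent.L0h46.CV.ful Pool.Agent.L0h46.CV.div' Pool.Agent.L0h46.CV.spl
    obtain ⟨K, -, hK⟩ := Pool.Agent.L0h46.CY.fin hone Pool.Agent.L0h46.CY.bez
      Pool.Agent.L0h46.CY.shr Pool.Agent.L0h56.CY.t_GRW Pool.Agent.L0h56.CY.t_SZ
      n d m F hd hFd hF hm hdm S ε hε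
    exact ⟨K, hK⟩

end Pool.Agent.Results.MP_464c42_nt.FullValuesInAllDimensions
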