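import Pool.Agent.L0h46.CV.Asm
import Pool.Agent.L0h46.CV.BAD
import Pool.Agent.L0h46.CV.TB
import Pool.Agent.L0h46.CV.CLS
import Pool.Agent.L0h46.CV.WBA
import Pool.Agent.L0h46.CV.FUL
import Pool.Agent.L0h46.CV.DIV
import Pool.Agent.L0h46.CV.SUN
import Pool.Agent.L0h46.CV.SPL
import Pool.Agent.L0h55.CV.COL
import Pool.Agent.L0h78.CV.WB

/-!
# Campana points on the projective line: the divisor of a binary form of degree at most `4 m + 1`

Let `F` be a binary form of degree `d` with integral coefficients and without multiple factors, `D`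
its divisor on the projective line over `ℚ`, a reduced divisor of degree `d` (its components may have
any degrees), `m ≥ 2` and `Δ = (1 - 1 / m) D`.  The C-pair `(ℙ¹, Δ)` is of general type if and only if
`d (1 - 1 / m) > 2`; this implies `d ≥ 3`.

Let `S` be a finite set of primes.  The `S`-integral points of `(ℙ¹, Δ)` are the points `(a : b)`, `a`
and `b` coprime integers with `F(a, b) ≠ 0`, such that `F(a, b)` is `m`-full outside `S`: every prime
`p ∉ S` which divides `F(a, b)` divides it at least `m` times (`F` with coprime coefficients; if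
`D = ∑ D_i` and `F = ∏ F_i` accordingly, the points with `F_i(a, b)` `m_i`-full for all `i` and
`m_i ≥ m` are among them, so that everything holds for the C-pairs `(ℙ¹, ∑ (1 - 1 / m_i) D_i)`, too).

According to the conjecture of Campana there are only finitely many such points if the pair is of
general type.  There are about `B²` rational points of height at most `B`, and at most
`B ^ (1 + d / m + ε)` of them can have an `m`-full value for a trivial reason: there are few `m`-full
numbers up to `B ^ d`; this says nothing for `d ≥ m`.  We prove for `d ≤ 4 m + 1` that at most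
`B ^ (max (3 / 2 + 1 / (2 m)) (d / (2 m + 1)) + ε)` of the points of height at most `B` are
`S`-integral for the C-pair.

The proof.  Write `F(a, b) = ± s A L`, `s` composed of primes of `S` and of the primes modulo which
`F` has multiple factors, `L` the part from the primes `> B ^ θ`, `θ < 2`.  If `A` is larger than
`B ^ (1 / 2)`, then `A` has an `m`-full divisor between `B ^ (1 / 2)` and `B²` or is divisible by a
power `p ^ m` with `p ≤ B ^ θ`, and these points are counted with lattices.  As `d ≤ 4 m + 1`, all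
primes of `L` have the same exponent, so that `L = y ^ t` with a prime `t`; for fixed `s A` the points
with `F(a, b) = ± s A y ^ t` are counted, uniformly in `s A`, with the large sieve and with Weil's
bound for the number of points on the curves `y ^ t = f(x)` over finite fields.
-/

set_option autoImplicit false

namespace Pool.Agent.Results.MP_464c42_nt.FullValuesOfBinaryForms

open Finset Polynomial

/-- The binary form `F(a, b) = ∑ c_i a ^ i b ^ (d - i)` of degree `d` with the coefficients `c_0`, …,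
`c_d`, at `x = (a, b)`. -/
def form (d : ℕ) (c : ℕ → ℤ) (x : ℤ × ℤ) : ℤ :=
  ∑ i ∈ range (d + 1), c i * x.1 ^ i * x.2 ^ (d - i)

/-- The form `F` has no multiple factors (over `ℚ`): the polynomial `F(X, 1)` is squarefree and `F` is
not divisible by `b ^ 2`. -/
def Reduced (d : ℕ) (c : ℕ → ℤ) : Prop :=
  Squarefree (∑ i ∈ range (d + 1), C (c i : ℚ) * X ^ i) ∧ (c d ≠ 0 ∨ c (d - 1) ≠ 0)

/-- The pairs `x = (a, b)` of coprime integers of absolute value at most `B` with `F(a, b) ≠ 0` such
that every prime outside `S` which divides `F(a, b)` divides it at least `m` times.  (The `S`-integral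
points of height at most `B` of the C-pair `(ℙ¹, (1 - 1 / m) D)`, every point being given by two pairs
`± x`.) -/
def points (d : ℕ) (c : ℕ → ℤ) (m : ℕ) (S : Finset ℕ) (B : ℝ) : Set (ℤ × ℤ) :=
  {x | IsCoprime x.1 x.2 ∧ |(x.1 : ℝ)| ≤ B ∧ |(x.2 : ℝ)| ≤ B ∧ form d c x ≠ 0 ∧
    ∀ p : ℕ, p.Prime → p ∉ S → (p : ℤ) ∣ form d c x → (p : ℤ) ^ m ∣ form d c x}

lemma red {d : ℕ} {c : ℕ → ℤ} (h : Reduced d c) : Pool.Agent.L0h46.CV.Red d c := by
  refine ⟨?_, h.2⟩
  have e : (Pool.Agent.L0h46.CV.fp d c).map (Int.castRingHom ℚ) =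
      ∑ i ∈ range (d + 1), C (c i : ℚ) * X ^ i := by
    unfold Pool.Agent.L0h46.CV.fp
    rw [Polynomial.map_sum]
    refine sum_congr rfl fun i _ => ?_
    rw [Polynomial.map_mul, Polynomial.map_pow, Polynomial.map_X, Polynomial.map_C]
    simp
  rw [e]
  exact h.1

lemma points_eq (d : ℕ) (c : ℕ → ℤ) (m : ℕ) (S : Finset ℕ) (B : ℝ) :
    points d c m S B = Pool.Agent.L0h46.CV.Pts d c m S B := by
  ext x
  have h : (Pool.Agent.L0h46.CV.ht x : ℝ) ≤ B ↔ |(x.1 : ℝ)| ≤ B ∧ |(x.2 : ℝ)| ≤ B := by
    unfold Pool.Agent.L0h46.CV.ht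
    rw [Nat.cast_max, max_le_iff, Nat.cast_natAbs, Nat.cast_natAbs, Int.cast_abs, Int.cast_abs]
  constructor
  · rintro ⟨h1, h2, h3, h4, h5⟩
    exact ⟨h1, h.2 ⟨h2, h3⟩, h4, h5⟩
  · rintro ⟨h1, h2, h4, h5⟩
    exact ⟨h1, (h.1 h2).1, (h.1 h2).2, h4, h5⟩

/-- **Campana points on the projective line.**  Let `F` be a binary form of degree `d ≥ 3` without
multiple factors, `m ≥ 2` and `d ≤ 4 m + 1`.  Then for all finite sets `S` of primes and all `ε > 0`
there is a constant `K` such that for all `B ≥ 1` there are at most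
`K B ^ (max (3 / 2 + 1 / (2 m)) (d / (2 m + 1)) + ε)` pairs of coprime integers `a`, `b` with
`|a|, |b| ≤ B` and `F(a, b) ≠ 0` such that every prime outside `S` which divides `F(a, b)` divides it
at least `m` times.  The maximum is less than `2`. -/
theorem result (d : ℕ) (c : ℕ → ℤ) (hd : 3 ≤ d) (hF : Reduced d c) (m : ℕ) (hm : 2 ≤ m)
    (hdm : d ≤ 4 * m + 1) :
    max (3 / 2 + 1 / (2 * (m : ℝ))) (d / (2 * (m : ℝ) + 1)) < 2 ∧
    ∀ (S : Finset ℕ) (ε : ℝ), 0 < ε → ∃ K : ℝ, ∀ B : ℝ, 1 ≤ B →
      (points d c m S B).Finite ∧ ((points d c m S B).ncard : ℝ) ≤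
        K * B ^ (max (3 / 2 + 1 / (2 * (m : ℝ))) (d / (2 * (m : ℝ) + 1)) + ε) := by
  have hmR : (2 : ℝ) ≤ m := by exact_mod_cast hm
  refine ⟨?_, ?_⟩
  · rw [max_lt_iff]
    constructor
    · have : 1 / (2 * (m : ℝ)) ≤ 1 / 4 := by
        rw [div_le_div_iff₀ (by positivity) (by norm_num)]
        linarith
      linarith
    · rw [div_lt_iff₀ (by positivity)]
      have : (d : ℝ) ≤ 4 * m + 1 := by exact_mod_cast hdm
      linarith
  · intro S ε hε
    have hcol := Pool.Agent.L0h55.CV.col
    have hbad := Pool.Agent.L0h46.CV.bad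
    obtain ⟨K, -, hK⟩ := Pool.Agent.L0h46.CV.asm hbad (Pool.Agent.L0h46.CV.tb hcol)
      (Pool.Agent.L0h78.CV.wb (Pool.Agent.L0h46.CV.wba hbad Pool.Agent.L0h46.CV.cls))
      Pool.Agent.L0h46.CV.ful Pool.Agent.L0h46.CV.div' Pool.Agent.L0h46.CV.sun
      Pool.Agent.L0h46.CV.spl d c hd (red hF) m hm (by omega) S ε hε
    refine ⟨K, fun B hB => ?_⟩
    rw [points_eq]
    exact hK B hB

end Pool.Agent.Results.MP_464c42_nt.FullValuesOfBinaryForms
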