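import Mathlib
import Pool.Agent.L0h11.P.Ct

/-!
# MP_464c42_nt: C-pairs with random divisors on any projective variety over the rational numbers

Let `D i`, `i < r`, be the divisor of a form of degree `d i` in `N + 1` variables whose coefficients
are chosen at random among the integers of absolute value at most `H`, let `m i ∈ {2, 3, …} ∪ {∞}` be
fixed multiplicities, and let `A` be a set of rational points of `ℙ ^ N`, for example the set of all
rational points of a projective variety `X ⊆ ℙ ^ N`, with at most `K L ^ β` points of height at most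
`L` for all `L`.

For almost all tuples of forms (all but a proportion `C (K + 1) H ^ (-η)`, where `C` and `η > 0` do not
depend on `A`) and for all finite sets `S` of primes with product at most `H ^ κ` at once, no point of
`A` of height at most `H ^ θ` is an integral point outside `S` for the C-pair with the divisors `D i`
and the multiplicities `m i`. The condition is
`θ (β + ∑ d i / m i) + ∑ (1 / m i + κ (1 - 1 / m i)) < ∑ (d i + 1)`.

For every `κ < 1` there is such a `θ > 1` if `∑ d i (1 - 1 / m i) > β`. For `X = ℙ ^ N` this is the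
condition that the C-pair `(ℙ ^ N, ∑ (1 - 1 / m i) D i)` is of general type,
`∑ d i (1 - 1 / m i) > N + 1`. It is also the condition that `(X, ∑ (1 - 1 / m i) (D i ∩ X))` is of
general type for abelian varieties `X` (where every `β > 0` is possible), and for the Fano varieties
`X` with canonical divisor `-β` times the hyperplane class for which the number of rational points has
the expected order, for example for quadrics.
-/

set_option autoImplicit false

namespace Pool.Agent.Results.MP_464c42_nt.RandomPairs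

open Finset
open Pool.Agent.L0h11 (Monomials)
open Pool.Agent.L0h11.RP

/-- **C-pairs with random divisors.** `Exceptional d m A H Q R` is the set of the tuples of forms of
degrees `d i` with integer coefficients of absolute value at most `H`, for which there are a finite set
`S` of primes with product at most `Q` and a point of `A` with coprime coordinates of absolute value
at most `R` which is integral outside `S` for the C-pair with the divisors of the forms and the
multiplicities `m i`. There are `∏ i, (2 * H + 1) ^ card (Monomials N (d i))` tuples of such forms. -/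
theorem result {N r : ℕ} (hN : 1 ≤ N) (hr : 0 < r) (d : Fin r → ℕ) (hd : ∀ i, 1 ≤ d i)
    (m : Fin r → ℕ∞) (hm : ∀ i, 2 ≤ m i) :
    -- sets with at most `K L ^ β` points of height at most `L`
    (∀ β κ θ : ℝ, 0 ≤ β → 0 ≤ κ → κ < 1 → 1 ≤ θ →
      θ * (β + ∑ i, d i * rc (m i)) + ∑ i, (rc (m i) + κ * (1 - rc (m i))) < ∑ i, ((d i : ℝ) + 1) →
      ∃ η C : ℝ, 0 < η ∧ ∀ (A : Set (Fin (N + 1) → ℤ)) (K : ℝ),
        (∀ L : ℕ, 1 ≤ L → ((pts A L).ncard : ℝ) ≤ K * (L : ℝ) ^ β) → ∀ H : ℕ, 1 ≤ H →
          ((Exceptional d m A H ((H : ℝ) ^ κ) ((H : ℝ) ^ θ)).ncard : ℝ) ≤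
            C * (K + 1) * (H : ℝ) ^ (-η) *
              ∏ i, ((2 * H + 1 : ℕ) : ℝ) ^ Fintype.card (Monomials N (d i))) ∧
    -- the range with `θ > 1`
    (∀ β κ : ℝ, 0 ≤ β → 0 ≤ κ → κ < 1 → β < ∑ i, d i * (1 - rc (m i)) →
      ∃ θ η C : ℝ, 1 < θ ∧ 0 < η ∧ ∀ (A : Set (Fin (N + 1) → ℤ)) (K : ℝ),
        (∀ L : ℕ, 1 ≤ L → ((pts A L).ncard : ℝ) ≤ K * (L : ℝ) ^ β) → ∀ H : ℕ, 1 ≤ H →
          ((Exceptional d m A H ((H : ℝ) ^ κ) ((H : ℝ) ^ θ)).ncard : ℝ) ≤
            C * (K + 1) * (H : ℝ) ^ (-η) *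
              ∏ i, ((2 * H + 1 : ℕ) : ℝ) ^ Fintype.card (Monomials N (d i))) ∧
    -- the pairs of general type on the projective space
    ((N : ℝ) + 1 < ∑ i, d i * (1 - rc (m i)) → ∀ κ : ℝ, 0 ≤ κ → κ < 1 →
      ∃ θ η C : ℝ, 1 < θ ∧ 0 < η ∧ ∀ H : ℕ, 1 ≤ H →
        ((Exceptional (N := N) d m Set.univ H ((H : ℝ) ^ κ) ((H : ℝ) ^ θ)).ncard : ℝ) ≤
          C * (H : ℝ) ^ (-η) * ∏ i, ((2 * H + 1 : ℕ) : ℝ) ^ Fintype.card (Monomials N (d i))) := by
  refine ⟨fun β κ θ hβ hκ0 hκ1 hθ hcond => main1 hN hr d hd m hm hβ hκ0 hκ1 hθ hcond,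
    fun β κ hβ hκ0 hκ1 hgt => main2 hN hr d hd m hm hβ hκ0 hκ1 hgt, fun hgt κ hκ0 hκ1 => ?_⟩
  obtain ⟨θ, η, C, hθ, hη, h⟩ := main2 hN hr d hd m hm (β := (N : ℝ) + 1) (by positivity) hκ0 hκ1 hgt
  exact ⟨θ, η, C * (3 ^ (N + 1) + 1), hθ, hη, fun H hH =>
    h Set.univ (3 ^ (N + 1)) (fun L hL => pts_univ N hL) H hH⟩

end Pool.Agent.Results.MP_464c42_nt.RandomPairs
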